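import Pool.Agent.Helper61.FN.GoalsD

/-!
# Packet FN-FC (MP_06d934_gt, project FN): types B, C, D at the level of matrices
-/

set_option autoImplicit false

namespace Pool.Agent.Helper40.FN

open Pool.Agent.Helper61.FN
open Pool.Agent.Helper58.DM (Frame Sizes kk Full Einstein FD FC)

theorem parC_of_sizes {I : Type} [Fintype I] (F : Frame I) (p q m : ℕ) (hs : Sizes F p q m) :
    ParC (p : ℝ) q m (-F.η) := by
  obtain ⟨-, hp, hq, hm, h1, h2⟩ := hs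
  refine ⟨by exact_mod_cast hp, by exact_mod_cast hq, by exact_mod_cast hm, ?_, by linarith,
    by linarith⟩
  have := F.η_sq
  nlinarith

theorem few_of {I : Type} [Fintype I] [DecidableEq I] (F : Frame I) (p q m C : ℕ)
    (hUC : ∀ (p q m : ℕ) (ep : ℝ), ParC (p : ℝ) q m ep →
      (Sols mC (cC (p : ℝ) q m ep) (dC (p : ℝ) q m ep) (2 * p + 2 * q + m + 2 * ep)).encard ≤ C)
    (hLKC : G_LKC) (hSCC : G_SCC) (hs : Sizes F p q m) (hk : 0 < kk F) (hF : Full F) :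
    Few C (fun w : Fin 6 → ℝ ↦ ∀ c, 0 < w c) (Einstein F) := by
  have hP := parC_of_sizes F p q m hs
  have ein : ∀ (w : Fin 6 → ℝ) (c₀ : ℝ), (∀ c, 0 < w c) → (Einstein F c₀ w ↔
      ∀ c, Pool.Agent.Helper58.DH.ric (Pool.Agent.Helper58.DH.dF (-F.η) p q m)
        (Pool.Agent.Helper58.DH.AF (-F.η) p q m) w c = c₀) := fun w c₀ hw ↦
    Pool.Agent.Helper58.DM.m_ein I F p q m w c₀ hs hk hF hw
  have hsub : {w : Fin 6 → ℝ | (∀ c, 0 < w c) ∧ Einstein F (1 / 2) w} ⊆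
      Sols mC (cC (p : ℝ) q m (-F.η)) (dC (p : ℝ) q m (-F.η)) (2 * p + 2 * q + m + 2 * (-F.η)) := by
    rintro w ⟨hw, he⟩
    exact hLKC p q m (-F.η) hP w hw ((ein w (1 / 2) hw).1 he)
  have hcard : {w : Fin 6 → ℝ | (∀ c, 0 < w c) ∧ Einstein F (1 / 2) w}.encard ≤ C :=
    (Set.encard_le_encard hsub).trans (hUC p q m (-F.η) hP)
  have hfin : {w : Fin 6 → ℝ | (∀ c, 0 < w c) ∧ Einstein F (1 / 2) w}.Finite := by
    rw [← Set.encard_lt_top_iff]
    exact lt_of_le_of_lt hcard (ENat.natCast_lt_top C)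
  refine ⟨hfin.toFinset, ?_, ?_, ?_⟩
  · rw [hfin.encard_eq_coe_toFinset_card] at hcard
    exact_mod_cast hcard
  · intro y hy
    exact (hfin.mem_toFinset).1 hy
  · intro x c hx he
    obtain ⟨hc, h2⟩ := hSCC p q m (-F.η) hP x c hx ((ein x c hx).1 he)
    have hpos : ∀ i, 0 < ((2 * c) • x) i := fun i ↦ by
      rw [Pi.smul_apply, smul_eq_mul]
      exact mul_pos (by linarith) (hx i)
    refine ⟨hc, (2 * c) • x, ?_, (2 * c)⁻¹, by positivity, ?_⟩
    · rw [hfin.mem_toFinset]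
      exact ⟨hpos, (ein _ (1 / 2) hpos).2 h2⟩
    · rw [smul_smul, inv_mul_cancel₀ (by positivity), one_smul]

theorem goalFC (hUC : G_UC) (hLKC : G_LKC) (hSCC : G_SCC) : G_FC := by
  obtain ⟨C, hC⟩ := hUC
  refine ⟨C, fun p q m hp hq hm hm2 ↦ ?_, fun p q r hp hq hr ↦ ?_⟩
  · obtain ⟨-, b, c, d⟩ := Pool.Agent.Helper58.DM.k_gw.1 p q m hp hq hm hm2
    exact few_of _ p q m C hC hLKC hSCC c d b
  · obtain ⟨-, b, c, d⟩ := Pool.Agent.Helper58.DM.k_gw.2 p q r hp hq hr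
    exact few_of _ p q (2 * r) C hC hLKC hSCC c d b

end Pool.Agent.Helper40.FN
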